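import Pool.Agent.H5.JumpBound

set_option autoImplicit false

namespace Pool.Agent.Results.MP_59f6dc_co.NoBound

open Pool.Agent.H5.JumpDefs

theorem result (B : ℕ) : ∃ (d : ℕ) (P : Fin 3 → EuclideanSpace ℝ (Fin d)),
    (∃ k Q, Jumps k P Q ∧ SimilarLarger P Q) ∧
    ∀ k Q, Jumps k P Q → SimilarLarger P Q → B < k :=
  H5.JumpBound.main B

end Pool.Agent.Results.MP_59f6dc_co.NoBound
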